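import Mathlib
import Pool.Agent.Helper133.Brouwer

namespace Pool.Agent.H909R3.MP5de

open MeasureTheory Set Filter Topology

/-- Brouwer's theorem for a continuous self map of the standard simplex. -/
lemma simplex_fixed {ι : Type} [Fintype ι] [Nonempty ι]
    (Ψ : (ι → ℝ) → (ι → ℝ)) (hc : Continuous Ψ)
    (h0 : ∀ w : ι → ℝ, (∀ i, 0 ≤ w i) → ∑ i, w i = 1 →
      (∀ l, 0 ≤ Ψ w l) ∧ ∑ l, Ψ w l = 1) :
    ∃ w : ι → ℝ, (∀ i, 0 ≤ w i) ∧ ∑ i, w i = 1 ∧ Ψ w = w := by
  classical
  set S : (ι → ℝ) → ℝ := fun x => ∑ j, max (x j) 0 with hS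
  have hSc : Continuous S := by
    rw [hS]; fun_prop
  set N : (ι → ℝ) → (ι → ℝ) := fun x i =>
    (max (x i) 0 + max (1 - S x) 0 / (Fintype.card ι : ℝ)) / max 1 (S x) with hN
  have hNc : Continuous N := by
    rw [hN]
    refine continuous_pi (fun i => ?_)
    refine Continuous.div (by fun_prop) (by fun_prop) (fun x => ?_)
    exact (lt_of_lt_of_le one_pos (le_max_left _ _)).ne'
  have hcard : (0 : ℝ) < (Fintype.card ι : ℝ) := by
    exact_mod_cast Fintype.card_pos
  have hN0 : ∀ x i, 0 ≤ N x i := by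
    intro x i
    rw [hN]
    positivity
  have hN1 : ∀ x, ∑ i, N x i = 1 := by
    intro x
    have hS0 : 0 ≤ S x := Finset.sum_nonneg (fun i _ => le_max_right _ _)
    have : ∑ i, N x i = (S x + max (1 - S x) 0) / max 1 (S x) := by
      rw [hN]
      simp only
      rw [← Finset.sum_div, Finset.sum_add_distrib, Finset.sum_const, Finset.card_univ,
        nsmul_eq_mul, mul_div_cancel₀ _ hcard.ne']
    rw [this]
    rcases le_total (S x) 1 with h | h
    · rw [max_eq_left (by linarith), max_eq_left h]; norm_num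
    · rw [max_eq_right (by linarith), max_eq_right h, add_zero]
      exact div_self (by linarith)
  have hNid : ∀ x : ι → ℝ, (∀ i, 0 ≤ x i) → ∑ i, x i = 1 → N x = x := by
    intro x hx0 hx1
    have hSx : S x = 1 := by
      rw [hS]
      simp only
      rw [← hx1]
      exact Finset.sum_congr rfl (fun i _ => max_eq_left (hx0 i))
    funext i
    rw [hN]
    simp [hSx, hx0 i]
  obtain ⟨w, hw⟩ := Pool.Agent.Helper133.Brouwer.brouwer (fun x => Ψ (N x))
    (hc.comp hNc) 1 (by
      intro x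
      obtain ⟨h1, h2⟩ := h0 (N x) (hN0 x) (hN1 x)
      rw [pi_norm_le_iff_of_nonneg zero_le_one]
      intro i
      rw [Real.norm_eq_abs, abs_of_nonneg (h1 i), ← h2]
      exact Finset.single_le_sum (f := fun i => Ψ (N x) i) (fun j _ => h1 j) (Finset.mem_univ i))
  obtain ⟨h1, h2⟩ := h0 (N w) (hN0 w) (hN1 w)
  rw [hw] at h1 h2
  refine ⟨w, h1, h2, ?_⟩
  rw [hNid w h1 h2] at hw
  exact hw

end Pool.Agent.H909R3.MP5de
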