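import Mathlib
import Pool.Agent.H909R3.MP5de.Simplex

namespace Pool.Agent.H909R3.MP5de

open MeasureTheory Set Filter Topology

variable {X : Type} [MetricSpace X] [CompactSpace X] [MeasurableSpace X] [BorelSpace X]

/-- Finite combination of Dirac masses. -/
noncomputable def comb {ι : Type} [Fintype ι] (w : ι → ℝ) (x : ι → X) : Measure X :=
  ∑ i, ENNReal.ofReal (w i) • Measure.dirac (x i)

lemma comb_prob {ι : Type} [Fintype ι] (w : ι → ℝ) (hw : ∀ i, 0 ≤ w i) (h1 : ∑ i, w i = 1)
    (x : ι → X) : IsProbabilityMeasure (comb w x) := by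
  constructor
  rw [comb, Measure.finsetSum_apply]
  simp only [Measure.smul_apply, measure_univ, smul_eq_mul, mul_one]
  rw [← ENNReal.ofReal_sum_of_nonneg (fun i _ => hw i), h1, ENNReal.ofReal_one]

lemma comb_integral {ι : Type} [Fintype ι] (w : ι → ℝ) (hw : ∀ i, 0 ≤ w i)
    (x : ι → X) (F : X → ℝ) (hF : Continuous F) : ∫ y, F y ∂(comb w x) = ∑ i, w i * F (x i) := by
  rw [comb, integral_finsetSum_measure]
  · refine Finset.sum_congr rfl (fun i _ => ?_)
    rw [integral_smul_measure, integral_dirac, ENNReal.toReal_ofReal (hw i), smul_eq_mul]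
  · intro i _
    refine Integrable.smul_measure ?_ ENNReal.ofReal_ne_top
    exact hF.integrable_of_hasCompactSupport (HasCompactSupport.of_compactSpace _)

/-- The discrete step. -/
lemma discrete_step [Nonempty X] (g1 g2 g3 : X → X) (hg1 : Continuous g1) (hg2 : Continuous g2)
    (hg3 : Continuous g3)
    (hsurj : ∀ a b c : X, ∃ x, g1 x = a ∧ g2 x = b ∧ g3 x = c) (p q : X)
    (ε : ℝ) (hε : 0 < ε) :
    ∃ μ η : Measure X, IsProbabilityMeasure μ ∧ IsProbabilityMeasure η ∧
      (∀ (f : X → ℝ) (K : X × X → ℝ), Continuous f → Continuous K →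
        ∫ x, f (g1 x) * K (g2 x, g3 x) ∂η =
          (∫ x, f x ∂μ) * ∫ x, (K (x, p) + K (x, q)) / 2 ∂μ) ∧
      (∀ (F : X → ℝ) (δ : ℝ), Continuous F → (∀ x y, dist x y ≤ ε → |F x - F y| ≤ δ) →
        |∫ x, F x ∂η - ∫ x, F x ∂μ| ≤ δ) := by
  classical
  -- finite net
  obtain ⟨t, -, htfin, htcov⟩ := (isCompact_univ (X := X)).finite_cover_balls hε
  have htf := htfin.fintype
  have hnet : ∀ y : X, ∃ i : t, dist y i.1 ≤ ε := by
    intro y
    have := htcov (mem_univ y)
    simp only [mem_iUnion, Metric.mem_ball] at this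
    obtain ⟨i, hi, hd⟩ := this
    exact ⟨⟨i, hi⟩, hd.le⟩
  have hne : Nonempty t := ⟨(hnet (Classical.arbitrary X)).choose⟩
  choose Y hY1 hY2 hY3 using hsurj
  choose τ hτ using hnet
  set pq : Bool → X := fun b => if b then p else q with hpq
  set I := t × t × Bool with hI
  set yy : t × t × Bool → X := fun z => Y z.1.1 z.2.1.1 (pq z.2.2) with hyy
  set Ψ : (t → ℝ) → (t → ℝ) := fun w l =>
    ∑ z : t × t × Bool, if τ (yy z) = l then w z.1 * w z.2.1 / 2 else 0 with hΨ
  have hsum2 : ∀ w : t → ℝ, ∀ (A B : t → ℝ) (C : t → Bool → ℝ),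
      ∑ z : t × t × Bool, w z.1 * w z.2.1 / 2 * (A z.1 * C z.2.1 z.2.2) =
      (∑ i, w i * A i) * ∑ j, w j * ((C j true + C j false) / 2) := by
    intro w A B C
    rw [Fintype.sum_prod_type, Finset.sum_mul]
    refine Finset.sum_congr rfl (fun i _ => ?_)
    rw [Fintype.sum_prod_type, Finset.mul_sum]
    refine Finset.sum_congr rfl (fun j _ => ?_)
    rw [Fintype.sum_bool]
    ring
  have hmass : ∀ w : t → ℝ, ∑ i, w i = 1 →
      ∑ z : t × t × Bool, w z.1 * w z.2.1 / 2 = 1 := by
    intro w hw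
    have := hsum2 w (fun _ => 1) (fun _ => 1) (fun _ _ => 1)
    simp only [mul_one] at this
    rw [this]
    norm_num [hw]
  obtain ⟨w, hw0, hw1, hwf⟩ := simplex_fixed Ψ (by
      rw [hΨ]
      refine continuous_pi (fun l => ?_)
      refine continuous_finsetSum _ (fun z _ => ?_)
      split_ifs <;> fun_prop) (by
      intro w hw0 hw1
      constructor
      · intro l
        refine Finset.sum_nonneg (fun z _ => ?_)
        split_ifs
        · exact div_nonneg (mul_nonneg (hw0 _) (hw0 _)) zero_le_two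
        · exact le_rfl
      · rw [hΨ]
        simp only
        rw [Finset.sum_comm]
        rw [← hmass w hw1]
        refine Finset.sum_congr rfl (fun z _ => ?_)
        rw [Finset.sum_ite_eq]
        simp)
  set v : t × t × Bool → ℝ := fun z => w z.1 * w z.2.1 / 2 with hv
  have hv0 : ∀ z, 0 ≤ v z := fun z => div_nonneg (mul_nonneg (hw0 _) (hw0 _)) zero_le_two
  have hv1 : ∑ z, v z = 1 := hmass w hw1
  refine ⟨comb w (fun i => i.1), comb v yy, comb_prob w hw0 hw1 _, comb_prob v hv0 hv1 _, ?_, ?_⟩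
  · intro f K hf hK
    rw [comb_integral v hv0 yy _ (by fun_prop), comb_integral w hw0 _ _ hf,
      comb_integral w hw0 _ _ (by fun_prop)]
    have := hsum2 w (fun i => f i.1) (fun _ => 1) (fun j b => K (j.1, pq b))
    simp only [hpq, if_true] at this
    rw [hyy]
    simp only [hY1, hY2, hY3, hv]
    simpa [hpq] using this
  · intro F δ hF hFδ
    rw [comb_integral v hv0 yy _ hF, comb_integral w hw0 _ _ hF]
    have h2 : ∑ i : t, w i * F i.1 = ∑ z, v z * F (τ (yy z)).1 := by
      have : ∀ i : t, w i * F i.1 = ∑ z, (if τ (yy z) = i then v z * F i.1 else 0) := by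
        intro i
        conv_lhs => rw [← hwf]
        rw [hΨ]
        simp only
        rw [Finset.sum_mul]
        refine Finset.sum_congr rfl (fun z _ => ?_)
        split_ifs <;> simp [hv]
      rw [Finset.sum_congr rfl (fun i _ => this i), Finset.sum_comm]
      refine Finset.sum_congr rfl (fun z _ => ?_)
      rw [Finset.sum_ite_eq]
      simp
    rw [h2, ← Finset.sum_sub_distrib]
    calc |∑ z, (v z * F (yy z) - v z * F (τ (yy z)).1)|
        ≤ ∑ z, |v z * F (yy z) - v z * F (τ (yy z)).1| := Finset.abs_sum_le_sum_abs _ _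
      _ ≤ ∑ z, v z * δ := by
          refine Finset.sum_le_sum (fun z _ => ?_)
          rw [← mul_sub, abs_mul, abs_of_nonneg (hv0 z)]
          exact mul_le_mul_of_nonneg_left (hFδ _ _ (hτ _)) (hv0 z)
      _ = δ := by rw [← Finset.sum_mul, hv1, one_mul]

/-- The limit measure. -/
lemma exist_mu [Nonempty X] (g1 g2 g3 : X → X) (hg1 : Continuous g1) (hg2 : Continuous g2)
    (hg3 : Continuous g3)
    (hsurj : ∀ a b c : X, ∃ x, g1 x = a ∧ g2 x = b ∧ g3 x = c) (p q : X) :
    ∃ μ : Measure X, IsProbabilityMeasure μ ∧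
      ∀ (f : X → ℝ) (K : X × X → ℝ), Continuous f → Continuous K →
        ∫ x, f (g1 x) * K (g2 x, g3 x) ∂μ =
          (∫ x, f x ∂μ) * ∫ x, (K (x, p) + K (x, q)) / 2 ∂μ := by
  have hpos : ∀ n : ℕ, (0 : ℝ) < 1 / ((n : ℝ) + 1) := fun n => by positivity
  choose μ η hμ hη h1 h2 using fun n : ℕ =>
    discrete_step g1 g2 g3 hg1 hg2 hg3 hsurj p q (1 / ((n : ℝ) + 1)) (hpos n)
  set m : ℕ → ProbabilityMeasure X := fun n => ⟨μ n, hμ n⟩ with hm
  set 𝓤 := Filter.hyperfilter ℕ with hU
  obtain ⟨ν, -, hν⟩ := (isCompact_univ (X := ProbabilityMeasure X)).ultrafilter_le_nhds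
    (𝓤.map m) (by simp)
  have hten : Tendsto m 𝓤 (𝓝 ν) := hν
  have hat : (𝓤 : Filter ℕ) ≤ atTop := Nat.hyperfilter_le_atTop
  have T1 : ∀ F : X → ℝ, Continuous F →
      Tendsto (fun n => ∫ x, F x ∂(μ n)) 𝓤 (𝓝 (∫ x, F x ∂(ν : Measure X))) := by
    intro F hF
    have := (ProbabilityMeasure.tendsto_iff_forall_integral_tendsto.1 hten)
      (BoundedContinuousFunction.mkOfCompact ⟨F, hF⟩)
    exact this
  have T2 : ∀ F : X → ℝ, Continuous F →
      Tendsto (fun n => ∫ x, F x ∂(η n)) 𝓤 (𝓝 (∫ x, F x ∂(ν : Measure X))) := by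
    intro F hF
    have hu := CompactSpace.uniformContinuous_of_continuous hF
    have hd : Tendsto (fun n => ∫ x, F x ∂(η n) - ∫ x, F x ∂(μ n)) atTop (𝓝 0) := by
      rw [Metric.tendsto_atTop]
      intro δ hδ
      obtain ⟨ε0, hε0, hh⟩ := Metric.uniformContinuous_iff.1 hu (δ / 2) (by positivity)
      obtain ⟨N, hN⟩ := exists_nat_one_div_lt hε0
      refine ⟨N, fun n hn => ?_⟩
      rw [Real.dist_eq, sub_zero]
      refine lt_of_le_of_lt (h2 n F (δ / 2) hF ?_) (by linarith)
      intro x y hxy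
      have : dist x y < ε0 := by
        refine lt_of_le_of_lt hxy (lt_of_le_of_lt ?_ hN)
        apply one_div_le_one_div_of_le (by positivity)
        have : (N : ℝ) ≤ n := by exact_mod_cast hn
        linarith
      have := hh this
      rw [Real.dist_eq] at this
      exact this.le
    have := (hd.mono_left hat).add (T1 F hF)
    simpa using this
  refine ⟨ν, inferInstance, ?_⟩
  intro f K hf hK
  have e1 := T2 (fun x => f (g1 x) * K (g2 x, g3 x)) (by fun_prop)
  have e2 := (T1 f hf).mul (T1 (fun x => (K (x, p) + K (x, q)) / 2) (by fun_prop))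
  have : (fun n => ∫ x, f (g1 x) * K (g2 x, g3 x) ∂(η n)) =
      fun n => (∫ x, f x ∂(μ n)) * ∫ x, (K (x, p) + K (x, q)) / 2 ∂(μ n) := by
    funext n
    exact h1 n f K hf hK
  rw [this] at e1
  exact tendsto_nhds_unique e1 e2

/-- The law of `(g1, g2, g3)` under the limit measure. -/
lemma exist_mu_law [Nonempty X] (g1 g2 g3 : X → X) (hg1 : Continuous g1) (hg2 : Continuous g2)
    (hg3 : Continuous g3)
    (hsurj : ∀ a b c : X, ∃ x, g1 x = a ∧ g2 x = b ∧ g3 x = c) (p q : X) (hpq : p ≠ q) :
    ∃ μ : Measure X, IsProbabilityMeasure μ ∧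
      (∀ A B : Set X, MeasurableSet A → MeasurableSet B →
        μ {x | g1 x ∈ A ∧ g2 x ∈ B} = μ A * μ B) ∧
      (∀ a : X, μ {a} ≤ μ {g1 a} * μ {g2 a} * (1 / 2)) := by
  obtain ⟨μ, hμ, hint⟩ := exist_mu g1 g2 g3 hg1 hg2 hg3 hsurj p q
  set ν : Measure X := (1 / 2 : ENNReal) • Measure.dirac p + (1 / 2 : ENNReal) • Measure.dirac q
    with hν
  have hνp : IsProbabilityMeasure ν := by
    constructor
    rw [hν]
    simp only [Measure.coe_add, Measure.coe_smul, Pi.add_apply, Pi.smul_apply, measure_univ,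
      smul_eq_mul, mul_one]
    rw [ENNReal.add_halves]
  have hmeasG : Measurable (fun x => (g1 x, (g2 x, g3 x))) := by
    apply Measurable.prodMk hg1.measurable
    exact hg2.measurable.prodMk hg3.measurable
  have hmap : Measure.map (fun x => (g1 x, (g2 x, g3 x))) μ = μ.prod (μ.prod ν) := by
    have : IsProbabilityMeasure (Measure.map (fun x => (g1 x, (g2 x, g3 x))) μ) :=
      Measure.isProbabilityMeasure_map hmeasG.aemeasurable
    apply Measure.eq_prod_of_integral_mul_boundedContinuousFunction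
    intro f K
    rw [integral_map hmeasG.aemeasurable (by
      apply Continuous.aestronglyMeasurable
      fun_prop)]
    simp only
    rw [hint f K f.continuous K.continuous]
    congr 1
    rw [integral_prod _ (by
      exact K.continuous.integrable_of_hasCompactSupport (HasCompactSupport.of_compactSpace _))]
    refine integral_congr_ae (Filter.Eventually.of_forall (fun x => ?_))
    simp only
    have hcx : ∀ z : X, Integrable (fun y => K (x, y)) (Measure.dirac z) := by
      intro z
      exact (Continuous.integrable_of_hasCompactSupport (by fun_prop)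
        (HasCompactSupport.of_compactSpace _))
    rw [hν, integral_add_measure ((hcx p).smul_measure (by simp)) ((hcx q).smul_measure (by simp)),
      integral_smul_measure, integral_smul_measure, integral_dirac, integral_dirac]
    simp
    ring
  have hlaw : ∀ A B C : Set X, MeasurableSet A → MeasurableSet B → MeasurableSet C →
      μ {x | g1 x ∈ A ∧ g2 x ∈ B ∧ g3 x ∈ C} = μ A * (μ B * ν C) := by
    intro A B C hA hB hC
    have h1 : μ {x | g1 x ∈ A ∧ g2 x ∈ B ∧ g3 x ∈ C} =
        Measure.map (fun x => (g1 x, (g2 x, g3 x))) μ (A ×ˢ (B ×ˢ C)) := by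
      rw [Measure.map_apply hmeasG (hA.prod (hB.prod hC))]
      rfl
    rw [h1, hmap, Measure.prod_prod, Measure.prod_prod]
  refine ⟨μ, hμ, ?_, ?_⟩
  · intro A B hA hB
    have := hlaw A B univ hA hB MeasurableSet.univ
    simpa using this
  · intro a
    have h1 := hlaw {g1 a} {g2 a} {g3 a} (measurableSet_singleton _) (measurableSet_singleton _)
      (measurableSet_singleton _)
    have h2 : μ {a} ≤ μ {x | g1 x ∈ ({g1 a} : Set X) ∧ g2 x ∈ ({g2 a} : Set X) ∧
        g3 x ∈ ({g3 a} : Set X)} := by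
      apply measure_mono
      intro x hx
      rw [mem_singleton_iff] at hx
      subst hx
      simp
    have h3 : ν {g3 a} ≤ 1 / 2 := by
      rw [hν]
      simp only [Measure.coe_add, Measure.coe_smul, Pi.add_apply, Pi.smul_apply,
        smul_eq_mul]
      rw [Measure.dirac_apply' _ (measurableSet_singleton _),
        Measure.dirac_apply' _ (measurableSet_singleton _)]
      by_cases hp : p = g3 a
      · have hq : q ≠ g3 a := fun h => hpq (hp.trans h.symm)
        simp [hp, hq]
      · by_cases hq : q = g3 a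
        · simp [hp, hq]
        · simp [hp, hq]
    calc μ {a} ≤ _ := h2
      _ = μ {g1 a} * (μ {g2 a} * ν {g3 a}) := h1
      _ ≤ μ {g1 a} * (μ {g2 a} * (1 / 2)) := by gcongr
      _ = _ := by ring

end Pool.Agent.H909R3.MP5de
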