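import Mathlib
import Pool.Agent.H909R3.MP5de.Exist

namespace Pool.Agent.H909R3.MP5de

open MeasureTheory Set Filter Topology

variable {X : Type} [MetricSpace X] [CompactSpace X] [MeasurableSpace X] [BorelSpace X]

lemma meas_ball (μ : Measure X) [IsProbabilityMeasure μ] (r : ℝ) :
    Measurable (fun x => μ.real (Metric.closedBall x r)) := by
  have hS : MeasurableSet {z : X × X | dist z.2 z.1 ≤ r} := by
    apply IsClosed.measurableSet
    exact isClosed_le (by fun_prop) (by fun_prop)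
  have := measurable_measure_prodMk_left (ν := μ) hS
  exact this.ennreal_toReal

lemma no_atoms (μ : Measure X) [IsProbabilityMeasure μ] (g1 g2 : X → X)
    (h : ∀ a, μ {a} ≤ μ {g1 a} * μ {g2 a} * (1 / 2)) (a : X) : μ {a} = 0 := by
  set m := ⨆ a, μ {a} with hm
  have hm1 : m ≤ 1 := iSup_le (fun a => prob_le_one)
  have h1 : ∀ a, μ {a} ≤ m / 2 := by
    intro a
    calc μ {a} ≤ μ {g1 a} * μ {g2 a} * (1 / 2) := h a
      _ ≤ m * 1 * (1 / 2) := by
        gcongr
        · exact le_iSup (fun a => μ {a}) (g1 a)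
        · exact prob_le_one
      _ = m / 2 := by
        rw [mul_one, one_div, ← div_eq_mul_inv]
  have h2 : m ≤ m / 2 := iSup_le h1
  have h3 : m = 0 := by
    by_contra hne
    have := ENNReal.half_lt_self hne (ne_top_of_le_ne_top ENNReal.one_ne_top hm1)
    exact absurd h2 (not_le.2 this)
  have : μ {a} ≤ m := le_iSup (fun a => μ {a}) a
  rw [h3] at this
  exact le_antisymm this zero_le

lemma exists_big (μ : Measure X) [IsProbabilityMeasure μ] (A : ℕ → Set X) (hm : Monotone A)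
    (hu : ⋃ n, A n = univ) (t : ℝ) (ht : t < 1) : ∃ n, t < μ.real (A n) := by
  have h1 := tendsto_measure_iUnion_atTop (μ := μ) hm
  rw [hu, measure_univ] at h1
  have h2 : Tendsto (fun n => μ.real (A n)) atTop (𝓝 1) := by
    have := (ENNReal.tendsto_toReal (ENNReal.one_ne_top)).comp h1
    rw [ENNReal.toReal_one] at this
    exact this
  exact (h2.eventually (lt_mem_nhds ht)).exists

lemma base_radius (μ : Measure X) [IsProbabilityMeasure μ] (h : ∀ a, μ {a} = 0) (c : ℝ)
    (hc : 0 < c) (t : ℝ) (ht : t < 1) :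
    ∃ s : ℝ, 0 < s ∧ s < 1 ∧ t < μ.real {x | μ.real (Metric.closedBall x s) ≤ c} := by
  set A : ℕ → Set X := fun n => {x | μ.real (Metric.closedBall x (1 / ((n : ℝ) + 2))) ≤ c} with hA
  have hr : ∀ m n : ℕ, m ≤ n → 1 / ((n : ℝ) + 2) ≤ 1 / ((m : ℝ) + 2) := by
    intro m n hmn
    apply one_div_le_one_div_of_le (by positivity)
    have : (m : ℝ) ≤ n := by exact_mod_cast hmn
    linarith
  have hm : Monotone A := by
    intro m n hmn x hx
    simp only [hA, mem_ofPred_eq] at hx ⊢
    refine le_trans ?_ hx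
    exact measureReal_mono (Metric.closedBall_subset_closedBall (hr m n hmn))
  have hu : ⋃ n, A n = univ := by
    rw [eq_univ_iff_forall]
    intro x
    have h1 : Tendsto (μ ∘ fun n : ℕ => Metric.closedBall x (1 / ((n : ℝ) + 2))) atTop
        (𝓝 (μ (⋂ n : ℕ, Metric.closedBall x (1 / ((n : ℝ) + 2))))) := by
      apply tendsto_measure_iInter_atTop
      · intro n
        exact Metric.isClosed_closedBall.measurableSet.nullMeasurableSet
      · intro m n hmn
        exact Metric.closedBall_subset_closedBall (hr m n hmn)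
      · exact ⟨0, measure_ne_top _ _⟩
    have h2 : (⋂ n : ℕ, Metric.closedBall x (1 / ((n : ℝ) + 2))) = {x} := by
      apply Subset.antisymm
      · intro y hy
        rw [mem_iInter] at hy
        rw [mem_singleton_iff]
        have hl : Tendsto (fun n : ℕ => 1 / ((n : ℝ) + 2)) atTop (𝓝 0) := by
          have h0 : Tendsto (fun n : ℕ => ((n : ℝ) + 2)) atTop atTop :=
            tendsto_atTop_add_const_right _ _ tendsto_natCast_atTop_atTop
          exact tendsto_const_nhds.div_atTop h0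
        have : dist y x ≤ 0 := ge_of_tendsto' hl (fun n => by
          have := hy n
          rwa [Metric.mem_closedBall] at this)
        exact dist_le_zero.1 this
      · intro y hy
        rw [mem_singleton_iff] at hy
        subst hy
        rw [mem_iInter]
        intro n
        exact Metric.mem_closedBall_self (by positivity)
    rw [h2, h x] at h1
    have h3 : Tendsto (fun n : ℕ => μ.real (Metric.closedBall x (1 / ((n : ℝ) + 2)))) atTop
        (𝓝 0) := by
      have := (ENNReal.tendsto_toReal ENNReal.zero_ne_top).comp h1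
      rw [ENNReal.toReal_zero] at this
      exact this
    obtain ⟨n, hn⟩ := (h3.eventually (gt_mem_nhds hc)).exists
    rw [mem_iUnion]
    exact ⟨n, hn.le⟩
  obtain ⟨n, hn⟩ := exists_big μ A hm hu t ht
  refine ⟨1 / ((n : ℝ) + 2), by positivity, ?_, hn⟩
  rw [div_lt_one (by positivity)]
  have : (0 : ℝ) ≤ n := Nat.cast_nonneg n
  linarith

lemma good_set (μ : Measure X) [IsProbabilityMeasure μ] (g1 g2 : X → X) (hg1 : Continuous g1)
    (hg2 : Continuous g2)
    (hl1 : ∀ x, ∃ C : ℝ, ∀ᶠ y in 𝓝 x, dist (g1 y) (g1 x) ≤ C * dist y x)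
    (hl2 : ∀ x, ∃ C : ℝ, ∀ᶠ y in 𝓝 x, dist (g2 y) (g2 x) ≤ C * dist y x)
    (t : ℝ) (ht : 0 < t) :
    ∃ (M : ℝ) (A : Set X), 1 ≤ M ∧ MeasurableSet A ∧ μ.real Aᶜ ≤ t ∧
      ∀ x ∈ A, ∀ y, dist y x < 1 / M → dist (g1 y) (g1 x) ≤ M * dist y x ∧
        dist (g2 y) (g2 x) ≤ M * dist y x := by
  set A : ℕ → Set X := fun n => {x | ∀ y, dist y x < 1 / ((n : ℝ) + 1) →
      dist (g1 y) (g1 x) ≤ ((n : ℝ) + 1) * dist y x ∧
        dist (g2 y) (g2 x) ≤ ((n : ℝ) + 1) * dist y x} with hA
  have hclosed : ∀ n, IsClosed (A n) := by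
    intro n
    have : A n = ⋂ y, ({x | 1 / ((n : ℝ) + 1) ≤ dist y x} ∪
        ({x | dist (g1 y) (g1 x) ≤ ((n : ℝ) + 1) * dist y x} ∩
          {x | dist (g2 y) (g2 x) ≤ ((n : ℝ) + 1) * dist y x})) := by
      ext x
      simp only [hA, mem_ofPred_eq, mem_iInter, mem_union, mem_inter_iff]
      refine forall_congr' (fun y => ?_)
      constructor
      · intro h
        by_cases hh : dist y x < 1 / ((n : ℝ) + 1)
        · exact Or.inr (h hh)
        · exact Or.inl (not_lt.1 hh)
      · rintro (h | h) hh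
        · exact absurd hh (not_lt.2 h)
        · exact h
    rw [this]
    refine isClosed_iInter (fun y => ?_)
    refine IsClosed.union (isClosed_le (by fun_prop) (by fun_prop)) (IsClosed.inter ?_ ?_)
    · exact isClosed_le (by fun_prop) (by fun_prop)
    · exact isClosed_le (by fun_prop) (by fun_prop)
  have hm : Monotone A := by
    intro m n hmn x hx y hy
    have hmn' : (m : ℝ) ≤ n := by exact_mod_cast hmn
    have h1 : dist y x < 1 / ((m : ℝ) + 1) := by
      refine lt_of_lt_of_le hy ?_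
      apply one_div_le_one_div_of_le (by positivity)
      linarith
    obtain ⟨h2, h3⟩ := hx y h1
    have h4 : ((m : ℝ) + 1) * dist y x ≤ ((n : ℝ) + 1) * dist y x := by
      gcongr
    exact ⟨h2.trans h4, h3.trans h4⟩
  have hu : ⋃ n, A n = univ := by
    rw [eq_univ_iff_forall]
    intro x
    obtain ⟨C1, h1⟩ := hl1 x
    obtain ⟨C2, h2⟩ := hl2 x
    obtain ⟨δ, hδ, h3⟩ := Metric.eventually_nhds_iff.1 (h1.and h2)
    obtain ⟨n1, hn1⟩ := exists_nat_ge (max C1 C2)
    obtain ⟨n2, hn2⟩ := exists_nat_one_div_lt hδ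
    rw [mem_iUnion]
    refine ⟨max n1 n2, ?_⟩
    intro y hy
    have hn1' : (n1 : ℝ) ≤ (max n1 n2 : ℕ) := by exact_mod_cast le_max_left _ _
    have hn2' : (n2 : ℝ) ≤ (max n1 n2 : ℕ) := by exact_mod_cast le_max_right _ _
    have hy' : dist y x < δ := by
      refine lt_of_lt_of_le hy (le_trans ?_ hn2.le)
      apply one_div_le_one_div_of_le (by positivity)
      linarith
    obtain ⟨h4, h5⟩ := h3 hy'
    have h6 : C1 ≤ ((max n1 n2 : ℕ) : ℝ) + 1 := by
      have := le_max_left C1 C2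
      linarith
    have h7 : C2 ≤ ((max n1 n2 : ℕ) : ℝ) + 1 := by
      have := le_max_right C1 C2
      linarith
    exact ⟨h4.trans (mul_le_mul_of_nonneg_right h6 dist_nonneg),
      h5.trans (mul_le_mul_of_nonneg_right h7 dist_nonneg)⟩
  obtain ⟨n, hn⟩ := exists_big μ A hm hu (1 - t) (by linarith)
  refine ⟨(n : ℝ) + 1, A n, ?_, (hclosed n).measurableSet, ?_, ?_⟩
  · have : (0 : ℝ) ≤ n := Nat.cast_nonneg n
    linarith
  · rw [probReal_compl_eq_one_sub (hclosed n).measurableSet]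
    linarith
  · intro x hx y hy
    exact hx y hy

lemma step (μ : Measure X) [IsProbabilityMeasure μ] (g1 g2 : X → X)
    (hlaw : ∀ A B : Set X, MeasurableSet A → MeasurableSet B →
        μ {x | g1 x ∈ A ∧ g2 x ∈ B} = μ A * μ B)
    (A : Set X) (t : ℝ) (hAt : μ.real Aᶜ ≤ t) (r r' : ℝ)
    (hball : ∀ x ∈ A, μ.real (Metric.closedBall x r') ≤
      μ.real (Metric.closedBall (g1 x) r) * μ.real (Metric.closedBall (g2 x) r))
    (c : ℝ) (hc : 0 ≤ c) :
    (μ.real {x | μ.real (Metric.closedBall x r) ≤ c}) ^ 2 - t ≤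
      μ.real {x | μ.real (Metric.closedBall x r') ≤ c ^ 2} ∧
    2 * (μ.real {x | μ.real (Metric.closedBall x r) ≤ c}) -
      (μ.real {x | μ.real (Metric.closedBall x r) ≤ c}) ^ 2 - t ≤
      μ.real {x | μ.real (Metric.closedBall x r') ≤ c} := by
  have hmeas : ∀ (s d : ℝ), MeasurableSet {x | μ.real (Metric.closedBall x s) ≤ d} := by
    intro s d
    exact measurableSet_le (meas_ball μ s) measurable_const
  set B := {x | μ.real (Metric.closedBall x r) ≤ c} with hB
  have hlawR : ∀ A B : Set X, MeasurableSet A → MeasurableSet B →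
        μ.real {x | g1 x ∈ A ∧ g2 x ∈ B} = μ.real A * μ.real B := by
    intro A B hA hB
    rw [measureReal_def, hlaw A B hA hB, ENNReal.toReal_mul]
    rfl
  constructor
  · have h1 : {x | g1 x ∈ B ∧ g2 x ∈ B} ⊆ {x | μ.real (Metric.closedBall x r') ≤ c ^ 2} ∪ Aᶜ := by
      intro x hx
      by_cases hxA : x ∈ A
      · left
        obtain ⟨h1, h2⟩ := hx
        simp only [hB, mem_ofPred_eq] at h1 h2 ⊢
        refine (hball x hxA).trans ?_
        rw [sq]
        exact mul_le_mul h1 h2 measureReal_nonneg hc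
      · right
        exact hxA
    have h2 := (measureReal_mono (μ := μ) h1).trans (measureReal_union_le _ _)
    rw [hlawR B B (hmeas r c) (hmeas r c)] at h2
    rw [sq]
    linarith
  · have h1 : {x | μ.real (Metric.closedBall x r') ≤ c}ᶜ ⊆
        {x | g1 x ∈ Bᶜ ∧ g2 x ∈ Bᶜ} ∪ Aᶜ := by
      intro x hx
      by_cases hxA : x ∈ A
      · left
        have h3 := hball x hxA
        simp only [hB, mem_compl_iff, mem_ofPred_eq] at hx ⊢
        constructor
        · intro h1
          apply hx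
          refine h3.trans ?_
          calc _ ≤ c * 1 := mul_le_mul h1 measureReal_le_one measureReal_nonneg hc
            _ = c := mul_one c
        · intro h1
          apply hx
          refine h3.trans ?_
          calc _ ≤ 1 * c := mul_le_mul measureReal_le_one h1 measureReal_nonneg zero_le_one
            _ = c := one_mul c
      · right
        exact hxA
    have h2 := (measureReal_mono (μ := μ) h1).trans (measureReal_union_le _ _)
    rw [hlawR _ _ (hmeas r c).compl (hmeas r c).compl, probReal_compl_eq_one_sub (hmeas r' c),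
      probReal_compl_eq_one_sub (hmeas r c)] at h2
    nlinarith

lemma cover_bound (μ : Measure X) [IsProbabilityMeasure μ] (ι : X → ℝ)
    (hiso : ∀ x y, dist x y = |ι x - ι y|) (L : ℝ) (hL : ∀ x, |ι x| ≤ L) (hL0 : 0 ≤ L)
    (r : ℝ) (hr : 0 < r) (c : ℝ) (hc : 0 ≤ c) :
    μ.real {x | μ.real (Metric.closedBall x r) ≤ c} ≤ (2 * L / r + 2) * c := by
  set S := {x | μ.real (Metric.closedBall x r) ≤ c} with hS
  set N : ℕ := ⌈2 * L / r⌉₊ + 1 with hN
  set J : ℕ → Set X := fun j => {x | -L + j * r ≤ ι x ∧ ι x ≤ -L + (j + 1) * r} with hJ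
  have h1 : S ⊆ ⋃ j ∈ Finset.range N, S ∩ J j := by
    intro x hx
    have hx1 := hL x
    rw [abs_le] at hx1
    have h0 : 0 ≤ (ι x + L) / r := div_nonneg (by linarith) hr.le
    set j := ⌊(ι x + L) / r⌋₊ with hj
    have h2 : (j : ℝ) ≤ (ι x + L) / r := Nat.floor_le h0
    have h3 : (ι x + L) / r < j + 1 := Nat.lt_floor_add_one _
    have h4 : (ι x + L) / r ≤ 2 * L / r := by
      apply div_le_div_of_nonneg_right _ hr.le
      linarith
    have h5 : j < N := by
      have : (j : ℝ) ≤ ⌈2 * L / r⌉₊ := (h2.trans h4).trans (Nat.le_ceil _)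
      have : j ≤ ⌈2 * L / r⌉₊ := by exact_mod_cast this
      omega
    rw [le_div_iff₀ hr] at h2
    rw [div_lt_iff₀ hr] at h3
    simp only [mem_iUnion, Finset.mem_range]
    refine ⟨j, h5, hx, ?_, ?_⟩
    · linarith
    · linarith
  have h2 : ∀ j, μ.real (S ∩ J j) ≤ c := by
    intro j
    rcases (S ∩ J j).eq_empty_or_nonempty with h | ⟨x, hxS, hxJ⟩
    · rw [h]; simpa using hc
    · refine le_trans (measureReal_mono ?_) hxS
      intro y hy
      rw [Metric.mem_closedBall, hiso, abs_le]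
      obtain ⟨-, hy⟩ := hy
      simp only [hJ, mem_ofPred_eq] at hy hxJ
      constructor <;> linarith
  have h3 : μ.real S ≤ ∑ j ∈ Finset.range N, μ.real (S ∩ J j) :=
    (measureReal_mono h1 (measure_ne_top _ _)).trans (measureReal_biUnion_finset_le _ _)
  have h4 : ∑ j ∈ Finset.range N, μ.real (S ∩ J j) ≤ N * c := by
    calc _ ≤ ∑ j ∈ Finset.range N, c := Finset.sum_le_sum (fun j _ => h2 j)
      _ = N * c := by simp
  have h5 : (N : ℝ) ≤ 2 * L / r + 2 := by
    have := Nat.ceil_lt_add_one (div_nonneg (mul_nonneg zero_le_two hL0) hr.le)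
    rw [hN]
    push_cast
    linarith
  exact (h3.trans h4).trans (mul_le_mul_of_nonneg_right h5 hc)

lemma pow_bound (K s : ℝ) (M : ℝ) (hK : 0 ≤ K) (hs : 0 < s) (hM : 1 ≤ M) :
    ∃ k : ℕ, (2 * K / (s / M ^ (2 * k)) + 2) * Real.exp (-(2 : ℝ) ^ k) < 9 / 10 := by
  obtain ⟨n, hn⟩ := pow_unbounded_of_one_lt (M ^ 2) (one_lt_two (α := ℝ))
  have h1 : Tendsto (fun x : ℝ => x ^ n * Real.exp (-x)) atTop (𝓝 0) :=
    Real.tendsto_pow_mul_exp_neg_atTop_nhds_zero n
  have h0 : Tendsto (fun x : ℝ => x ^ 0 * Real.exp (-x)) atTop (𝓝 0) :=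
    Real.tendsto_pow_mul_exp_neg_atTop_nhds_zero 0
  have h2 : Tendsto (fun k : ℕ => (2 : ℝ) ^ k) atTop atTop :=
    tendsto_pow_atTop_atTop_of_one_lt one_lt_two
  have h3 := ((h1.const_mul (2 * K / s)).add (h0.const_mul 2)).comp h2
  simp only [mul_zero, add_zero] at h3
  obtain ⟨k, hk⟩ := (h3.eventually (gt_mem_nhds (show (0 : ℝ) < 9 / 10 by norm_num))).exists
  refine ⟨k, lt_of_le_of_lt ?_ hk⟩
  simp only [Function.comp_apply, pow_zero, one_mul]
  have h4 : M ^ (2 * k) ≤ ((2 : ℝ) ^ k) ^ n := by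
    rw [pow_mul, ← pow_mul, ← pow_mul, mul_comm k n, pow_mul, pow_mul]
    exact pow_le_pow_left₀ (by positivity) hn.le k
  have h5 : 2 * K / (s / M ^ (2 * k)) = 2 * K / s * M ^ (2 * k) := by
    have : M ^ (2 * k) ≠ 0 := by positivity
    field_simp
  rw [h5]
  have h6 : 2 * K / s * M ^ (2 * k) ≤ 2 * K / s * ((2 : ℝ) ^ k) ^ n := by
    apply mul_le_mul_of_nonneg_left h4
    positivity
  have h7 := Real.exp_pos (-(2 : ℝ) ^ k)
  nlinarith

/-- The abstract impossibility theorem. -/
theorem abstract_main [Nonempty X] (g1 g2 g3 : X → X) (hg1 : Continuous g1) (hg2 : Continuous g2)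
    (hg3 : Continuous g3)
    (hsurj : ∀ a b c : X, ∃ x, g1 x = a ∧ g2 x = b ∧ g3 x = c) (p q : X) (hpq : p ≠ q)
    (hl1 : ∀ x, ∃ C : ℝ, ∀ᶠ y in 𝓝 x, dist (g1 y) (g1 x) ≤ C * dist y x)
    (hl2 : ∀ x, ∃ C : ℝ, ∀ᶠ y in 𝓝 x, dist (g2 y) (g2 x) ≤ C * dist y x)
    (ι : X → ℝ) (hiso : ∀ x y, dist x y = |ι x - ι y|) (L : ℝ) (hL : ∀ x, |ι x| ≤ L)
    (hL0 : 0 ≤ L) : False := by
  obtain ⟨μ, hμ, hlaw, hat⟩ := exist_mu_law g1 g2 g3 hg1 hg2 hg3 hsurj p q hpq
  have hna := no_atoms μ g1 g2 hat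
  obtain ⟨s, hs0, hs1, hs⟩ := base_radius μ hna (Real.exp (-1)) (Real.exp_pos _) (9 / 10)
    (by norm_num)
  obtain ⟨M, A, hM, hA, hAt, hAl⟩ := good_set μ g1 g2 hg1 hg2 hl1 hl2 (1 / 100) (by norm_num)
  have hM0 : 0 < M := by linarith
  set r : ℕ → ℝ := fun k => s / M ^ k with hr
  have hrpos : ∀ k, 0 < r k := fun k => by rw [hr]; positivity
  have hrM : ∀ k, M * r (k + 1) = r k := by
    intro k
    simp only [hr]
    rw [pow_succ]
    field_simp
  have hrlt : ∀ k, r (k + 1) < 1 / M := by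
    intro k
    have h1 : 1 ≤ M ^ k := one_le_pow₀ hM
    have h2 : r k ≤ s := by
      simp only [hr]
      exact div_le_self hs0.le h1
    rw [lt_div_iff₀ hM0, mul_comm, hrM]
    linarith
  have hball : ∀ k, ∀ x ∈ A, μ.real (Metric.closedBall x (r (k + 1))) ≤
      μ.real (Metric.closedBall (g1 x) (r k)) * μ.real (Metric.closedBall (g2 x) (r k)) := by
    intro k x hx
    have h1 : Metric.closedBall x (r (k + 1)) ⊆
        {y | g1 y ∈ Metric.closedBall (g1 x) (r k) ∧ g2 y ∈ Metric.closedBall (g2 x) (r k)} := by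
      intro y hy
      rw [Metric.mem_closedBall] at hy
      obtain ⟨h2, h3⟩ := hAl x hx y (lt_of_le_of_lt hy (hrlt k))
      have h4 : M * dist y x ≤ r k := by
        rw [← hrM k]
        exact mul_le_mul_of_nonneg_left hy hM0.le
      exact ⟨h2.trans h4, h3.trans h4⟩
    have h2 := measureReal_mono (μ := μ) h1
    refine h2.trans (le_of_eq ?_)
    rw [measureReal_def, hlaw _ _ Metric.isClosed_closedBall.measurableSet
      Metric.isClosed_closedBall.measurableSet, ENNReal.toReal_mul]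
    rfl
  have hind : ∀ k : ℕ, 9 / 10 ≤
      μ.real {x | μ.real (Metric.closedBall x (r (2 * k))) ≤ Real.exp (-(2 : ℝ) ^ k)} := by
    intro k
    induction k with
    | zero =>
      simp only [mul_zero, pow_zero, hr, div_one]
      exact hs.le
    | succ k ih =>
      have e1 := (step μ g1 g2 hlaw A (1 / 100) hAt (r (2 * k)) (r (2 * k + 1)) (hball (2 * k))
        (Real.exp (-(2 : ℝ) ^ k)) (Real.exp_pos _).le).1
      have e2 := (step μ g1 g2 hlaw A (1 / 100) hAt (r (2 * k + 1)) (r (2 * k + 1 + 1))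
        (hball (2 * k + 1)) (Real.exp (-(2 : ℝ) ^ (k + 1))) (Real.exp_pos _).le).2
      have e3 : Real.exp (-(2 : ℝ) ^ k) ^ 2 = Real.exp (-(2 : ℝ) ^ (k + 1)) := by
        rw [← Real.exp_nat_mul]
        congr 1
        push_cast
        ring
      rw [e3] at e1
      have e4 : 2 * (k + 1) = 2 * k + 1 + 1 := by ring
      rw [e4]
      set b := μ.real {x | μ.real (Metric.closedBall x (r (2 * k + 1))) ≤
        Real.exp (-(2 : ℝ) ^ (k + 1))} with hb
      have hb1 : b ≤ 1 := measureReal_le_one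
      have hb0 : 8 / 10 ≤ b := by nlinarith
      nlinarith
  obtain ⟨k, hk⟩ := pow_bound L s M hL0 hs0 hM
  have h1 := cover_bound μ ι hiso L hL hL0 (r (2 * k)) (hrpos _) (Real.exp (-(2 : ℝ) ^ k))
    (Real.exp_pos _).le
  have h2 := hind k
  simp only [hr] at h1 h2
  linarith

end Pool.Agent.H909R3.MP5de
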